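import Pool.Agent.helper12.DD.Spec

/-!
# Module CJK of project dd: (MP_baa4d7_al): `k_C` is invariant under conjugation
-/

set_option autoImplicit false

open Pool.Agent.helper49.Blk

namespace Pool.Agent.DD

section

variable {G : Type} [Group G]

theorem CJK_mem (g x : G) (P : Subgroup G) :
    g * x * g⁻¹ ∈ P.map (MulAut.conj g).toMonoidHom ↔ x ∈ P := by
  rw [Subgroup.mem_map]
  constructor
  · rintro ⟨y, hy, h⟩
    rw [MulEquiv.coe_toMonoidHom, MulAut.conj_apply] at h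
    have : y = x := by simpa using h
    rwa [← this]
  · intro hx
    exact ⟨x, hx, by rw [MulEquiv.coe_toMonoidHom, MulAut.conj_apply]⟩

theorem CJK_norm (g x : G) (P : Subgroup G) :
    g * x * g⁻¹ ∈ Subgroup.normalizer ((P.map (MulAut.conj g).toMonoidHom : Subgroup G) : Set G) ↔
      x ∈ Subgroup.normalizer (P : Set G) := by
  rw [Subgroup.mem_normalizer_iff, Subgroup.mem_normalizer_iff]
  constructor
  · intro h y
    have h1 := h (g * y * g⁻¹)
    have h2 : g * x * g⁻¹ * (g * y * g⁻¹) * (g * x * g⁻¹)⁻¹ = g * (x * y * x⁻¹) * g⁻¹ := by group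
    rw [h2, CJK_mem, CJK_mem] at h1
    exact h1
  · intro h y
    have h1 := h (g⁻¹ * y * g)
    rw [← CJK_mem g, ← CJK_mem g (x * (g⁻¹ * y * g) * x⁻¹)] at h1
    have h2 : g * (g⁻¹ * y * g) * g⁻¹ = y := by group
    have h3 : g * (x * (g⁻¹ * y * g) * x⁻¹) * g⁻¹ = g * x * g⁻¹ * y * (g * x * g⁻¹)⁻¹ := by group
    rw [h2, h3] at h1
    exact h1

theorem CJK_NC (g x : G) (C : List (Subgroup G)) :
    g * x * g⁻¹ ∈ NC (C.map fun P => P.map (MulAut.conj g).toMonoidHom) ↔ x ∈ NC C := by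
  unfold NC
  simp only [Subgroup.mem_iInf, List.mem_map, forall_exists_index, and_imp,
    forall_apply_eq_imp_iff₂]
  constructor
  · intro h P hP
    exact (CJK_norm g x P).1 (h P hP)
  · intro h P hP
    exact (CJK_norm g x P).2 (h P hP)

/-- the isomorphism of the normalisers -/
def CJK_equiv (g : G) (N N' : Subgroup G) (hN : ∀ x : G, g * x * g⁻¹ ∈ N' ↔ x ∈ N) : N ≃* N' where
  toFun x := ⟨g * x * g⁻¹, (hN x).2 x.2⟩
  invFun y := ⟨g⁻¹ * y * g, (hN _).1 (by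
    have : g * (g⁻¹ * (y : G) * g) * g⁻¹ = y := by group
    rw [this]
    exact y.2)⟩
  left_inv x := by
    apply Subtype.ext
    show g⁻¹ * (g * (x : G) * g⁻¹) * g = x
    group
  right_inv y := by
    apply Subtype.ext
    show g * (g⁻¹ * (y : G) * g) * g⁻¹ = y
    group
  map_mul' x y := by
    apply Subtype.ext
    show g * ((x : G) * y) * g⁻¹ = g * x * g⁻¹ * (g * y * g⁻¹)
    group

theorem CJK_equiv_coe (g : G) (N N' : Subgroup G) (hN : ∀ x : G, g * x * g⁻¹ ∈ N' ↔ x ∈ N)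
    (x : N) : (CJK_equiv g N N' hN x : G) = g * x * g⁻¹ := rfl

theorem CJK_om (g : G) (N N' : Subgroup G) (hN : ∀ x : G, g * x * g⁻¹ ∈ N' ↔ x ∈ N)
    (ψ : N' → ℂ) (a : G) :
    omInd N (fun x => ψ (CJK_equiv g N N' hN x)) a = omInd N' ψ a := by
  unfold omInd
  have h1 : (fun x => ψ (CJK_equiv g N N' hN x)) 1 = ψ 1 := congrArg ψ (map_one _)
  rw [h1]
  congr 1
  apply finsum_mem_eq_of_bijOn (CJK_equiv g N N' hN)
  · have hc : ∀ x : N, IsConj a (CJK_equiv g N N' hN x : G) ↔ IsConj a (x : G) := by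
      intro x
      rw [CJK_equiv_coe]
      have h1 : IsConj (x : G) (g * x * g⁻¹) := isConj_iff.2 ⟨g, rfl⟩
      exact ⟨fun h => h.trans h1.symm, fun h => h.trans h1⟩
    refine ⟨?_, (CJK_equiv g N N' hN).injective.injOn, ?_⟩
    · intro x hx
      exact (hc x).2 hx
    · intro y hy
      obtain ⟨x, rfl⟩ := (CJK_equiv g N N' hN).surjective y
      exact ⟨x, (hc x).1 hy, rfl⟩
  · intro x _
    rfl

variable {E : Type} [Group E]

theorem CJK_fix (ι : G →* E) (g : G) (N N' : Subgroup G)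
    (hN : ∀ x : G, g * x * g⁻¹ ∈ N' ↔ x ∈ N) (S S' : Set (Subgroup G))
    (hS : ∀ P, P ∈ S' ↔ ∃ Q ∈ S, P = Q.map (MulAut.conj g).toMonoidHom) (ψ : N' → ℂ) (e : E) :
    Fixes ι S' N' ψ e ↔
      Fixes ι S N (fun x => ψ (CJK_equiv g N N' hN x)) ((ι g)⁻¹ * e * ι g) := by
  have key : ∀ x y : G, ι y = (ι g)⁻¹ * e * ι g * ι x * ((ι g)⁻¹ * e * ι g)⁻¹ ↔
      ι (g * y * g⁻¹) = e * ι (g * x * g⁻¹) * e⁻¹ := by
    intro x y
    rw [map_mul, map_mul, map_inv, map_mul, map_mul, map_inv]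
    constructor
    · intro h
      rw [h]
      group
    · intro h
      have h1 : ι y = (ι g)⁻¹ * (ι g * ι y * (ι g)⁻¹) * ι g := by group
      rw [h1, h]
      group
  unfold Fixes
  constructor
  · rintro ⟨h1, h2⟩
    constructor
    · intro P hP x y hxy
      have := h1 _ ((hS _).2 ⟨P, hP, rfl⟩) _ _ ((key x y).1 hxy)
      rwa [CJK_mem, CJK_mem] at this
    · intro x y hxy
      exact h2 _ _ ((key x y).1 hxy)
  · rintro ⟨h1, h2⟩
    constructor
    · intro P hP x y hxy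
      obtain ⟨Q, hQ, rfl⟩ := (hS _).1 hP
      have ex : g * (g⁻¹ * x * g) * g⁻¹ = x := by group
      have ey : g * (g⁻¹ * y * g) * g⁻¹ = y := by group
      have := h1 Q hQ (g⁻¹ * x * g) (g⁻¹ * y * g) ((key _ _).2 (by rw [ex, ey]; exact hxy))
      rw [← CJK_mem g, ← CJK_mem g (g⁻¹ * y * g), ex, ey] at this
      exact this
    · intro x y hxy
      obtain ⟨x', rfl⟩ := (CJK_equiv g N N' hN).surjective x
      obtain ⟨y', rfl⟩ := (CJK_equiv g N N' hN).surjective y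
      exact h2 x' y' ((key _ _).2 hxy)

theorem CJK_stab (ι : G →* E) (hι : ι.range.Normal) (g : G) (N N' : Subgroup G)
    (hN : ∀ x : G, g * x * g⁻¹ ∈ N' ↔ x ∈ N) (S S' : Set (Subgroup G))
    (hS : ∀ P, P ∈ S' ↔ ∃ Q ∈ S, P = Q.map (MulAut.conj g).toMonoidHom) (ψ : N' → ℂ)
    (U : Subgroup E) :
    StabIs ι S' N' ψ U ↔ StabIs ι S N (fun x => ψ (CJK_equiv g N N' hN x)) U := by
  unfold StabIs
  refine forall_congr' fun e => ?_
  refine iff_congr Iff.rfl ?_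
  obtain ⟨k, hk⟩ : ∃ k : G, ι k = e⁻¹ * (ι g)⁻¹ * e := by
    have h1 : (ι g)⁻¹ ∈ ι.range := ⟨g⁻¹, map_inv ι g⟩
    have h2 := hι.conj_mem _ h1 e⁻¹
    rw [inv_inv] at h2
    exact h2
  have key : ∀ h : G, (ι g)⁻¹ * (e * ι h) * ι g = e * ι (k * h * g) := by
    intro h
    rw [map_mul, map_mul, hk]
    group
  constructor
  · rintro ⟨h, hh⟩
    refine ⟨k * h * g, ?_⟩
    rw [← key h]
    exact (CJK_fix ι g N N' hN S S' hS ψ _).1 hh
  · rintro ⟨h, hh⟩
    refine ⟨k⁻¹ * h * g⁻¹, ?_⟩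
    rw [CJK_fix ι g N N' hN S S' hS ψ, key]
    have : k * (k⁻¹ * h * g⁻¹) * g = h := by group
    rw [this]
    exact hh

end

theorem CJK_gen (hTRI : TRI_stmt) {G E : Type} [Group G] [Group E] (ι : G →* E)
    (hι : ι.range.Normal) (p : ℕ) (M : Ideal (integralClosure ℤ ℂ)) (χ : G → ℂ) (g : G)
    (N N' : Subgroup G) (hN : ∀ x : G, g * x * g⁻¹ ∈ N' ↔ x ∈ N) (S S' : Set (Subgroup G))
    (hS : ∀ P, P ∈ S' ↔ ∃ Q ∈ S, P = Q.map (MulAut.conj g).toMonoidHom) (d : ℕ)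
    (U : Subgroup E) :
    (kset p M ι χ N' S' d U).ncard = (kset p M ι χ N S d U).ncard := by
  have key : ∀ ψ : N' → ℂ, ψ ∈ kset p M ι χ N' S' d U ↔
      (fun x => ψ (CJK_equiv g N N' hN x)) ∈ kset p M ι χ N S d U := by
    intro ψ
    refine and_congr (hTRI _ _ (CJK_equiv g N N' hN) ψ) (and_congr ?_ (and_congr ?_
      (CJK_stab ι hι g _ _ hN _ _ hS ψ U)))
    · unfold Defc
      have h1 : (fun x => ψ (CJK_equiv g N N' hN x)) 1 = ψ 1 := congrArg ψ (map_one _)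
      rw [h1, Nat.card_congr (CJK_equiv g N N' hN).toEquiv]
    · unfold Induces
      simp only [CJK_om]
  apply Set.ncard_congr (fun ψ _ => fun x => ψ (CJK_equiv g N N' hN x))
  · intro ψ hψ
    exact (key ψ).1 hψ
  · intro ψ ψ' _ _ h
    ext y
    obtain ⟨x, rfl⟩ := (CJK_equiv g N N' hN).surjective y
    exact congrFun h x
  · intro ψ hψ
    have h1 : (fun x => (fun y => ψ ((CJK_equiv g N N' hN).symm y)) (CJK_equiv g N N' hN x)) =
        ψ := by
      ext x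
      exact congrArg ψ ((CJK_equiv g N N' hN).symm_apply_apply x)
    refine ⟨fun y => ψ ((CJK_equiv g N N' hN).symm y), ?_, h1⟩
    rw [key, h1]
    exact hψ

theorem CJK (hTRI : TRI_stmt) : CJK_stmt := by
  intro G E _ _ ι _ hι p M χ C C' d U hC
  obtain ⟨g, rfl⟩ := hC
  refine CJK_gen hTRI ι hι p M χ g _ _ (fun x => CJK_NC g x C) _ _ ?_ d U
  intro P
  constructor
  · intro hP
    obtain ⟨Q, hQ, rfl⟩ := List.mem_map.1 hP
    exact ⟨Q, hQ, rfl⟩
  · rintro ⟨Q, hQ, rfl⟩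
    exact List.mem_map.2 ⟨Q, hQ, rfl⟩

end Pool.Agent.DD
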